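import Mathlib
import Pool.Agent.H.MP_c23581_co.A

set_option autoImplicit false
open Finset

namespace Pool.Agent.Results.MP_c23581_co.Yes
open Pool.Agent.Lib.helper1

open Pool.Agent.H.MP_051ecf_co.A Pool.Agent.H.MP_c23581_co in
theorem result (d : ℕ) (hd : 3 ≤ d) : ∃ (n k : ℕ) (K : Finset (Finset (Fin n))), 1 ≤ k ∧
    (∅ ∈ K ∧ ∀ σ ∈ K, ∀ τ ⊆ σ, τ ∈ K) ∧
    ((∀ σ ∈ K, σ.card ≤ d + 1) ∧ ∃ σ ∈ K, σ.card = d + 1) ∧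
    (∃ φ : ↥{x : Fin n → ℝ | (∀ i, 0 ≤ x i) ∧ ∑ i, x i = 1 ∧ ∃ σ ∈ K, ∀ i, i ∉ σ → x i = 0} →
      EuclideanSpace ℝ (Fin d), Topology.IsEmbedding φ) ∧
    (∀ (F : Type) [Field F], ∀ σ ∈ K, σ.card < k →
      Hom.Acyc F fun τ => τ ∪ σ ∈ K ∧ τ ∩ σ = ∅) ∧
    ¬ ∃ D : Finset (Finset (Fin n) × Finset (Fin n)),
      (∀ p ∈ D, p.1 ⊆ p.2 ∧ p.2 ∈ K ∧ p.2.card = p.1.card + k) ∧
      (∀ σ ∈ K, ∃! p, p ∈ D ∧ p.1 ⊆ σ ∧ σ ⊆ p.2) ∧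
      ∀ p ∈ D, ∀ τ ⊆ p.1, ∃ q ∈ D, q.1 = τ := by
  classical
  obtain ⟨j, rfl⟩ := Nat.exists_eq_add_of_le hd
  refine ⟨9 + j, 2 + j, univ.filter (A.J _ 9 fac), by omega, ?_⟩
  simp only [mem_filter, mem_univ, true_and]
  refine ⟨⟨A.mem_J.2 ⟨53, by decide, empty_subset _⟩, ?_⟩, ⟨?_, _, A.mem_J.2 ⟨53, by decide,
    subset_rfl⟩, by rw [A.card_top j (by decide)]; omega⟩, ?_, fun F _ σ _ h => A.acyc j F σ h,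
    fun ⟨D, a, b, c⟩ => A.none j D a b c⟩
  · intro σ hσ τ s
    obtain ⟨m, a, b⟩ := A.mem_J.1 hσ
    exact A.mem_J.2 ⟨m, a, s.trans b⟩
  · intro σ hσ
    obtain ⟨m, a, b⟩ := A.mem_J.1 hσ
    have := card_le_card b
    rw [A.card_top j a] at this
    omega
  · obtain ⟨φ⟩ := A.run_J j (3 + j) 323 (by norm_num)
      (by rw [show (Mask.f 9 323).card = 4 by decide +kernel]; omega) _ _ h1
    rw [show {x : Fin (9 + j) → ℝ | (∀ i, 0 ≤ x i) ∧ ∑ i, x i = 1 ∧ ∃ σ ∈ univ.filter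
      (A.J (9 + j) 9 fac), ∀ i, i ∉ σ → x i = 0} = Flip.Geo (A.J (9 + j) 9 fac) by
        simp [Flip.Geo]]
    exact ⟨_, Topology.IsEmbedding.subtypeVal.comp φ.isEmbedding⟩

end Pool.Agent.Results.MP_c23581_co.Yes
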